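import Mathlib

/-!
# The coefficients `c_k^{(r,2)}`

For `s = 2` and every `r > 2` at least one of `c_5^{(r,2)}`, `c_17^{(r,2)}` is not `3`-integral.
If `c_0, ..., c_N` are integers then `∑_j q_j A_j^{(r)} ≡ 0 (mod m)` for all integer weights `q`
with `∑_j q_j C(j,k)^2 C(j+k,k)^2 ≡ 0 (mod m)` for all `k ≤ N`.  We use one such vector of weights
with `N = 5`, `m = 81` and one with `N = 17`, `m = 729`.  The sums `∑_j q_j A_j^{(r)}` are periodic
in `r` modulo `729`, with period `486`, and a finite computation shows that for no `r ≥ 3` both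
vanish.
-/

set_option autoImplicit false

namespace Pool.Agent.Results.MP_ee0f4e_nt.SquareCaseFails

open Finset

/-- `A_n^{(r)} = ∑_{k=0}^n C(n,k)^r C(n+k,k)^r`. -/
def A (r n : ℕ) : ℕ := ∑ k ∈ range (n + 1), (n.choose k) ^ r * ((n + k).choose k) ^ r

/-- `c` is the sequence `c_k^{(r,s)}`: for all `n`,
`A_n^{(r)} = ∑_{k=0}^n C(n,k)^s C(n+k,k)^s c_k`. -/
def IsCoeff (r s : ℕ) (c : ℕ → ℚ) : Prop :=
  ∀ n, (A r n : ℚ) = ∑ k ∈ range (n + 1), (n.choose k : ℚ) ^ s * ((n + k).choose k : ℚ) ^ s * c k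

/-- the recursive construction of the sequence -/
noncomputable def cf (r s : ℕ) (n : ℕ) : ℚ :=
  ((A r n : ℚ) - ∑ k : Fin n, (n.choose k : ℚ) ^ s * ((n + k).choose k : ℚ) ^ s * cf r s k) /
    ((n + n).choose n : ℚ) ^ s
decreasing_by exact k.2

/-- The sequence `c_k^{(r,s)}` exists and is unique. -/
theorem existsUnique_isCoeff (r s : ℕ) : ∃! c : ℕ → ℚ, IsCoeff r s c := by
  have hpos : ∀ n : ℕ, ((n + n).choose n : ℚ) ^ s ≠ 0 := fun n =>
    pow_ne_zero _ (by exact_mod_cast (Nat.choose_pos (by omega)).ne')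
  refine ⟨cf r s, fun n => ?_, fun c hc => ?_⟩
  · rw [sum_range_succ, cf.eq_1 r s n, Finset.sum_range (n := n)]
    rw [Nat.choose_self]
    have := hpos n
    field_simp
    push_cast
    ring
  · funext n
    induction n using Nat.strong_induction_on with
    | _ n ih =>
      have h := hc n
      rw [sum_range_succ, Nat.choose_self] at h
      rw [cf.eq_1 r s n]
      have e : ∑ k : Fin n, (n.choose k : ℚ) ^ s * ((n + k).choose k : ℚ) ^ s * cf r s k =
          ∑ k ∈ range n, (n.choose k : ℚ) ^ s * ((n + k).choose k : ℚ) ^ s * c k := by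
        rw [Finset.sum_range (n := n)]
        refine sum_congr rfl fun k _ => ?_
        rw [ih k k.2]
      rw [e, h]
      have := hpos n
      field_simp
      push_cast
      ring

/-- a table for `C(j,k) C(j+k,k)` -/
def bt (j : ℕ) : ℕ → ℕ
  | 0 => 1
  | k + 1 => bt j k * ((j - k) * (j + k + 1)) / (k + 1) ^ 2

theorem bt_eq (j k : ℕ) : bt j k = j.choose k * (j + k).choose k := by
  induction k with
  | zero => simp [bt]
  | succ k ih =>
    rw [bt, ih]
    refine Nat.div_eq_of_eq_mul_left (by positivity) ?_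
    have h1 := Nat.choose_succ_right_eq j k
    have h2 := Nat.add_one_mul_choose_eq (j + k) k
    have h3 : (j + (k + 1)).choose (k + 1) * (k + 1) = (j + k + 1) * (j + k).choose k := by
      rw [show j + (k + 1) = (j + k) + 1 by omega]
      exact h2.symm
    calc j.choose k * (j + k).choose k * ((j - k) * (j + k + 1))
        = (j.choose k * (j - k)) * ((j + k + 1) * (j + k).choose k) := by ring
      _ = (j.choose (k + 1) * (k + 1)) * ((j + (k + 1)).choose (k + 1) * (k + 1)) := by
        rw [← h1, ← h3]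
      _ = _ := by ring

/-- the matrix of the system for `s = 2` -/
def M (j k : ℕ) : ℕ := bt j k ^ 2

theorem M_eq (j k : ℕ) : M j k = (j.choose k) ^ 2 * ((j + k).choose k) ^ 2 := by
  rw [M, bt_eq, mul_pow]

theorem M_eq_zero {j k : ℕ} (h : j < k) : M j k = 0 := by
  rw [M_eq, Nat.choose_eq_zero_of_lt h]
  simp

theorem A_eq (r n : ℕ) : A r n = ∑ k ∈ range (n + 1), bt n k ^ r := by
  unfold A
  refine sum_congr rfl fun k _ => ?_
  rw [bt_eq, mul_pow]

/-- The linear combination of the `A_j^{(r)}` with a suitable vector of weights is divisible by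
`m`, if `c_0, ..., c_N` are integers. -/
theorem dvd_comb {r N m : ℕ} {c : ℕ → ℚ} (hc : IsCoeff r 2 c)
    (hz : ∀ k ≤ N, ∃ z : ℤ, c k = z) (q : ℕ → ℕ)
    (hq : ∀ k ∈ range (N + 1), m ∣ ∑ j ∈ range (N + 1), q j * M j k) :
    m ∣ ∑ j ∈ range (N + 1), q j * A r j := by
  choose! z hz using hz
  have hA : ∀ j ∈ range (N + 1), ((A r j : ℕ) : ℤ) = ∑ k ∈ range (N + 1), (M j k : ℤ) * z k := by
    intro j hj
    have hj : j < N + 1 := by simpa using hj
    have h := hc j
    have h2 : (A r j : ℚ) = ∑ k ∈ range (j + 1), (M j k : ℚ) * (z k : ℚ) := by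
      rw [h]
      refine sum_congr rfl fun k hk => ?_
      have hk : k < j + 1 := by simpa using hk
      rw [M_eq, hz k (by omega)]
      push_cast
      ring
    have h3 : ((A r j : ℕ) : ℤ) = ∑ k ∈ range (j + 1), (M j k : ℤ) * z k := by
      exact_mod_cast h2
    rw [h3]
    refine sum_subset (fun x hx => ?_) fun x _ hx => ?_
    · simp only [mem_range] at hx ⊢; omega
    · rw [M_eq_zero (by simp only [mem_range] at hx; omega)]
      simp
  have hsum : ((∑ j ∈ range (N + 1), q j * A r j : ℕ) : ℤ) =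
      ∑ k ∈ range (N + 1), ((∑ j ∈ range (N + 1), q j * M j k : ℕ) : ℤ) * z k := by
    push_cast
    simp only [sum_mul]
    rw [sum_comm]
    refine sum_congr rfl fun j hj => ?_
    rw [hA j hj, mul_sum]
    refine sum_congr rfl fun k _ => ?_
    ring
  have : (m : ℤ) ∣ ((∑ j ∈ range (N + 1), q j * A r j : ℕ) : ℤ) := by
    rw [hsum]
    refine dvd_sum fun k hk => ?_
    exact dvd_mul_of_dvd_left (by exact_mod_cast hq k hk) _
  exact_mod_cast this

/-- weights for `N = 5`, `m = 81` -/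
def q5 (j : ℕ) : ℕ := [66, 0, 69, 80, 0, 28].getD j 0

/-- weights for `N = 17`, `m = 729` -/
def q17 (j : ℕ) : ℕ := [210, 135, 249, 477, 0, 495, 363, 594, 150, 632, 333, 79, 606, 0, 609,
  416, 396, 88].getD j 0

theorem hq5 : ∀ k ∈ range (5 + 1), 81 ∣ ∑ j ∈ range (5 + 1), q5 j * M j k := by
  decide +kernel

theorem hq17 : ∀ k ∈ range (17 + 1), 729 ∣ ∑ j ∈ range (17 + 1), q17 j * M j k := by
  decide +kernel

/-- the residues modulo `729` of `C(j,k) C(j+k,k)`, `k ≤ j` -/
def row (j : ℕ) : List ℕ := (List.range (j + 1)).map fun k => bt j k % 729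

/-- the table of these residues, `j ≤ 17` -/
def tab : List (List ℕ) := (List.range 18).map row

/-- the sum `∑_k C(j,k)^r C(j+k,k)^r` modulo `729`, from a table -/
def rowSum (L : List ℕ) (r : ℕ) : ℕ := (L.map fun b => b ^ r % 729).sum

/-- a weighted sum of the first rows of the table -/
def comb (T : List (List ℕ)) (N : ℕ) (q : ℕ → ℕ) (r : ℕ) : ℕ :=
  ((List.range (N + 1)).map fun j => q j * rowSum (T.getD j []) r).sum

theorem sum_list (f : ℕ → ℕ) (n : ℕ) : ((List.range n).map f).sum = ∑ k ∈ range n, f k := by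
  induction n with
  | zero => rfl
  | succ n ih => rw [List.range_succ, List.map_append, List.sum_append, ih, sum_range_succ]; simp

theorem sum_modEq {f g : ℕ → ℕ} {m n : ℕ} (h : ∀ k ∈ range n, f k ≡ g k [MOD m]) :
    ∑ k ∈ range n, f k ≡ ∑ k ∈ range n, g k [MOD m] := by
  induction n with
  | zero => rfl
  | succ n ih =>
    rw [sum_range_succ, sum_range_succ]
    exact Nat.ModEq.add (ih fun k hk => h k (by simp only [mem_range] at hk ⊢; omega))
      (h n (by simp))

theorem rowSum_modEq (j r : ℕ) : rowSum (row j) r ≡ A r j [MOD 729] := by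
  rw [A_eq, rowSum, row, List.map_map, sum_list]
  refine sum_modEq fun k _ => ?_
  simp only [Function.comp]
  exact (Nat.mod_modEq _ _).trans ((Nat.mod_modEq _ _).pow r)

theorem tab_getD {j : ℕ} (hj : j < 18) : tab.getD j [] = row j := by
  rw [tab, List.getD_eq_getElem _ _ (by simpa using hj)]
  simp

theorem comb_modEq {N : ℕ} (hN : N < 18) (q : ℕ → ℕ) (r : ℕ) :
    comb tab N q r ≡ ∑ j ∈ range (N + 1), q j * A r j [MOD 729] := by
  rw [comb, sum_list]
  refine sum_modEq fun j hj => ?_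
  rw [tab_getD (by simp only [mem_range] at hj; omega)]
  exact (rowSum_modEq j r).mul_left _

theorem pow_period (b : ℕ) {r : ℕ} (hr : 6 ≤ r) : b ^ (r + 486) ≡ b ^ r [MOD 729] := by
  by_cases h : 3 ∣ b
  · have h6 : 729 ∣ b ^ r := by
      have : 3 ^ 6 ∣ b ^ 6 := pow_dvd_pow_of_dvd h 6
      exact (by simpa using this : 729 ∣ b ^ 6).trans (pow_dvd_pow b hr)
    have h7 : 729 ∣ b ^ (r + 486) := h6.trans (pow_dvd_pow b (by omega))
    exact ((Nat.modEq_zero_iff_dvd.mpr h7).trans (Nat.modEq_zero_iff_dvd.mpr h6).symm)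
  · have hco : Nat.Coprime b 729 := by
      have : Nat.Coprime b 3 := ((Nat.Prime.coprime_iff_not_dvd Nat.prime_three).mpr h).symm
      have := Nat.Coprime.pow_right 6 this
      simpa using this
    have ht : Nat.totient 729 = 486 := by
      rw [show (729 : ℕ) = 3 ^ 6 by norm_num, Nat.totient_prime_pow Nat.prime_three (by norm_num)]
      norm_num
    have := Nat.ModEq.pow_totient hco
    rw [ht] at this
    rw [pow_add]
    simpa using this.mul_left (b ^ r)

theorem A_period (j : ℕ) {r : ℕ} (hr : 6 ≤ r) : A (r + 486) j ≡ A r j [MOD 729] := by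
  rw [A_eq, A_eq]
  exact sum_modEq fun k _ => pow_period _ hr

theorem A_period' (j : ℕ) {r : ℕ} (hr : 6 ≤ r) (t : ℕ) : A (r + 486 * t) j ≡ A r j [MOD 729] := by
  induction t with
  | zero => rfl
  | succ t ih =>
    rw [Nat.mul_succ, ← add_assoc]
    exact (A_period j (by omega)).trans ih

/-- the table, explicitly -/
def table : List (List ℕ) :=
  [[1], [1, 2], [1, 6, 6], [1, 12, 30, 20], [1, 20, 90, 140, 70], [1, 30, 210, 560, 630, 252],
    [1, 42, 420, 222, 234, 585, 195], [1, 56, 27, 555, 615, 594, 348, 516], [1, 72, 531, 492,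
    387, 630, 249, 450, 477], [1, 90, 522, 255, 423, 18, 516, 684, 90, 506], [1, 110, 54, 57,
    258, 54, 606, 231, 81, 137, 319], [1, 132, 645, 282, 657, 144, 165, 675, 27, 641, 138,
    489], [1, 156, 174, 227, 585, 558, 495, 378, 135, 113, 60, 312, 295], [1, 182, 171, 509,
    214, 162, 198, 45, 567, 257, 703, 99, 85, 686], [1, 210, 714, 389, 531, 99, 495, 135, 621,
    599, 573, 582, 376, 297, 459], [1, 240, 429, 219, 387, 198, 183, 189, 270, 209, 678, 138,
    468, 513, 189, 171], [1, 272, 135, 264, 645, 378, 111, 402, 81, 434, 265, 162, 360, 342,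
    648, 198, 207], [1, 306, 657, 273, 369, 693, 696, 90, 306, 317, 189, 270, 630, 378, 135,
    252, 270, 675]]

/-- the finite check -/
theorem check : ((List.range 489).all fun i =>
    (comb table 5 q5 (i + 3) % 81 != 0) ||
    (comb table 17 q17 (i + 3) % 729 != 0)) = true := by
  decide +kernel

theorem tab_val : tab = table := by
  decide +kernel

/-- For `s = 2` and every `r ≥ 3` one of `c_0, ..., c_17` is not an integer. -/
theorem main {r : ℕ} (hr : 3 ≤ r) {c : ℕ → ℚ} (hc : IsCoeff r 2 c) :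
    ∃ k ≤ 17, ∀ z : ℤ, c k ≠ z := by
  by_contra hcon
  push Not at hcon
  have h5 := dvd_comb hc (fun k (hk : k ≤ 5) => hcon k (by omega)) q5 hq5
  have h17 := dvd_comb hc hcon q17 hq17
  -- reduce to `r ≤ 491`
  obtain ⟨r0, h3, hlt, hmod⟩ : ∃ r0, 3 ≤ r0 ∧ r0 < 492 ∧ ∀ j, A r j ≡ A r0 j [MOD 729] := by
    by_cases h6 : r < 6
    · exact ⟨r, hr, by omega, fun j => rfl⟩
    · refine ⟨6 + (r - 6) % 486, by omega, by omega, fun j => ?_⟩
      have e : r = 6 + (r - 6) % 486 + 486 * ((r - 6) / 486) := by omega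
      conv_lhs => rw [e]
      exact A_period' j (by omega) _
  have hs : ∀ (N : ℕ) (q : ℕ → ℕ), ∑ j ∈ range (N + 1), q j * A r j ≡
      ∑ j ∈ range (N + 1), q j * A r0 j [MOD 729] := fun N q =>
    sum_modEq fun j _ => (hmod j).mul_left _
  have c5 : comb tab 5 q5 r0 ≡ ∑ j ∈ range (5 + 1), q5 j * A r j [MOD 729] :=
    (comb_modEq (by norm_num) q5 r0).trans (hs 5 q5).symm
  have c17 : comb tab 17 q17 r0 ≡ ∑ j ∈ range (17 + 1), q17 j * A r j [MOD 729] :=
    (comb_modEq (by norm_num) q17 r0).trans (hs 17 q17).symm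
  have d5 : comb tab 5 q5 r0 % 81 = 0 := by
    have := (c5.of_dvd (by norm_num : (81 : ℕ) ∣ 729)).trans (Nat.modEq_zero_iff_dvd.mpr h5)
    exact this
  have d17 : comb tab 17 q17 r0 % 729 = 0 := by
    have := c17.trans (Nat.modEq_zero_iff_dvd.mpr h17)
    exact this
  have hch := check
  rw [List.all_eq_true] at hch
  have := hch (r0 - 3) (by simp only [List.mem_range]; omega)
  rw [show r0 - 3 + 3 = r0 by omega, ← tab_val, d5, d17] at this
  simp at this

/-- Q1 is false: for `s = 2` and `n = 17` there is no `r > s` such that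
`c_0^{(r,s)}, ..., c_n^{(r,s)}` are all integers. -/
theorem result : ∃ s n : ℕ, 1 < s ∧ ∀ r : ℕ, s < r → ∀ c : ℕ → ℚ, IsCoeff r s c →
    ∃ k ≤ n, ∀ z : ℤ, c k ≠ z :=
  ⟨2, 17, by norm_num, fun _ hr _ hc => main hr hc⟩

end Pool.Agent.Results.MP_ee0f4e_nt.SquareCaseFails
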